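import Pool.Agent.K1H80.EG.Gi2

/-!
# The geometric input
-/

set_option autoImplicit false
set_option linter.unusedSectionVars false

namespace Pool.Agent.K1H80.EG

open Pool.Agent.K1H80.EC (IsD isD_left isD_right exists_ext exists_der_ext)
open scoped Classical

variable {k F E U : Type} [Field k] [CharZero k] [Field F] [Field E] [Field U] [Algebra k F]
  [Algebra k E] [Algebra k U] [Algebra F E] [Algebra F U] [Algebra E U] [IsScalarTower k F E]
  [IsScalarTower k E U] [IsScalarTower F E U] {n : ℕ}

variable {D : Derivation k U U} {𝒞 : Type} {C : 𝒞 → Cht k E U n}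
  {W : Derivation k U U → Fin n → U}

/-- a derivation from a function -/
noncomputable def mkD {F R K : Type} [Field F] [CommRing R] [Field K] [Algebra F R] [Algebra R K]
    [Algebra F K] [IsScalarTower F R K] (δ : R → K) (h : IsD (algebraMap R K) δ)
    (hF : ∀ f : F, δ (algebraMap F R f) = 0) : Derivation F R K :=
  Derivation.mk'
    { toFun := δ
      map_add' := h.add
      map_smul' := fun f x => by
        rw [RingHom.id_apply, Algebra.smul_def, h.mul, hF, mul_zero, add_zero,
          ← IsScalarTower.algebraMap_apply, Algebra.smul_def] }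
    (fun x y => by
      change δ (x * y) = x • δ y + y • δ x
      rw [h.mul, Algebra.smul_def, Algebra.smul_def])

theorem Cht.w_add (C : Cht k E U n) {K : Type} [Field K] [Algebra C.R K] (d d' : C.R → K)
    (i : Fin n) : C.w (fun r => d r + d' r) i = C.w d i + C.w d' i := by
  unfold Cht.w
  rw [← Finset.sum_add_distrib]
  exact Finset.sum_congr rfl fun t _ => by ring

theorem Cht.w_sub (C : Cht k E U n) {K : Type} [Field K] [Algebra C.R K] (d d' : C.R → K)
    (i : Fin n) : C.w (fun r => d r - d' r) i = C.w d i - C.w d' i := by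
  unfold Cht.w
  rw [← Finset.sum_sub_distrib]
  exact Finset.sum_congr rfl fun t _ => by ring

theorem Cht.w_smul (C : Cht k E U n) {K : Type} [Field K] [Algebra C.R K] (f : K) (d : C.R → K)
    (i : Fin n) : C.w (fun r => f * d r) i = f * C.w d i := by
  unfold Cht.w
  rw [Finset.mul_sum]
  exact Finset.sum_congr rfl fun t _ => by ring

theorem Cht.w_sum (C : Cht k E U n) {K : Type} [Field K] [Algebra C.R K] {ι : Type*}
    (s : Finset ι) (β : ι → K) (d : ι → C.R → K) (i : Fin n) :
    C.w (fun r => ∑ a ∈ s, β a * d a r) i = ∑ a ∈ s, β a * C.w (d a) i := by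
  unfold Cht.w
  simp only [Finset.mul_sum]
  rw [Finset.sum_comm]
  exact Finset.sum_congr rfl fun a _ => Finset.sum_congr rfl fun t _ => by ring

theorem der_sum {k A M ι : Type*} [CommRing k] [CommRing A] [AddCommGroup M] [Algebra k A]
    [Module A M] [Module k M] (s : Finset ι) (f : ι → Derivation k A M) (x : A) :
    (∑ a ∈ s, f a) x = ∑ a ∈ s, f a x := by
  induction s using Finset.induction_on with
  | empty => simp
  | insert a s ha ih => rw [Finset.sum_insert ha, Finset.sum_insert ha, Derivation.add_apply, ih]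

/-- **The geometric input.** -/
theorem Geo.final (g : Geo F D C W) : ∃ (I : Finset (Fin n)) (l : Fin n → Fin n → E),
    (∀ i ∈ I, ∃ D' : Derivation k U U, (∀ e : E, D' (algebraMap E U e) = 0) ∧
      ∀ j, W D' j = algebraMap E U (l i j)) ∧
    (∀ i ∈ I, ∀ j ∈ I, l i j = if j = i then 1 else 0) ∧
    ∀ (c : 𝒞) (κ : Type) [Field κ] [CharZero κ] [Algebra (C c).R κ] [Algebra k κ] [Algebra F κ]
      [Algebra E κ] [IsScalarTower E (C c).R κ] [IsScalarTower F E κ] [IsScalarTower k E κ]
      (A : Type) [Fintype A] (s : A → (C c).R), I.card ≤ Fintype.card A + 1 →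
      AlgebraicIndependent E (fun a => algebraMap (C c).R κ (s a)) →
      (0 < n → ∃ i0 : Fin n, ∀ i, i ≠ i0 → ∃ δ : Derivation F κ κ, ∀ j, j ≠ i0 →
        (C c).w (fun r => δ (algebraMap (C c).R κ r)) j = if j = i then 1 else 0) ∧
      ∀ (Φ : (C c).R) (γ : Fin n → (C c).R),
        (∀ (d : Derivation F (C c).R κ), d Φ = ∑ i, algebraMap (C c).R κ (γ i) * (C c).w d i) →
        algebraMap (C c).R κ Φ = 0 → algebraMap (C c).R κ (⟨D Φ, g.stab c Φ Φ.2⟩ : (C c).R) = 0 →
        (∃ i, algebraMap (C c).R κ (γ i) ≠ 0) → ∀ r : (C c).R, algebraMap (C c).R κ r = 0 →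
          algebraMap (C c).R κ (⟨D r, g.stab c r r.2⟩ : (C c).R) = 0 := by
  obtain ⟨I, l, h1, h2, h3, h4⟩ := g.out
  refine ⟨I, l, h1, h2, ?_⟩
  intro c κ _ _ _ _ _ _ _ _ _ A _ s hcard hind
  have hFR : IsScalarTower F (C c).R κ := IsScalarTower.of_algebraMap_eq fun f => by
    rw [IsScalarTower.algebraMap_apply F E κ, IsScalarTower.algebraMap_apply E (C c).R κ,
      ← IsScalarTower.algebraMap_apply F E (C c).R]
  have hkE : ∀ t : k, algebraMap k (C c).R t = algebraMap E (C c).R (algebraMap k E t) := fun t =>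
    IsScalarTower.algebraMap_apply k E (C c).R t
  have hkR : IsScalarTower k (C c).R κ := IsScalarTower.of_algebraMap_eq fun t => by
    rw [hkE, ← IsScalarTower.algebraMap_apply E (C c).R κ, ← IsScalarTower.algebraMap_apply]
  -- the relations, in short form
  obtain ⟨θ, hθ⟩ : ∃ θ : Fin n → (Fin n → κ) →ₗ[κ] κ, ∀ j v, θ j v =
      v j - ∑ i ∈ I, v i * algebraMap (C c).R κ (algebraMap E (C c).R (l i j)) := by
    refine ⟨fun j => LinearMap.proj j - ∑ i ∈ I,
      (algebraMap (C c).R κ (algebraMap E (C c).R (l i j))) • LinearMap.proj i, fun j v => ?_⟩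
    rw [LinearMap.sub_apply, LinearMap.sum_apply, LinearMap.proj_apply]
    congr 1
    refine Finset.sum_congr rfl fun i _ => ?_
    rw [LinearMap.smul_apply, LinearMap.proj_apply, smul_eq_mul, mul_comm]
  -- derivations over `E`
  choose Da hDa using fun a : A => exists_der_ext (k := E) (E := E) (K := κ) 0 _ hind
    (fun b => if b = a then 1 else 0)
  have hDaE : ∀ a (e : E), Da a (algebraMap (C c).R κ (algebraMap E (C c).R e)) = 0 := by
    intro a e
    rw [← IsScalarTower.algebraMap_apply]
    exact (Da a).map_algebraMap e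
  -- derivations over `F`
  have h5 : ∀ j : {j // j ∉ I}, ∃ δ : Derivation F κ κ, ∀ j' ∉ I,
      θ j' ((C c).w (fun r => δ (algebraMap (C c).R κ r))) = if j' = j then 1 else 0 := by
    intro j
    obtain ⟨d0, hd0⟩ := h4 j j.2
    obtain ⟨δ, hδ⟩ := exists_ext (k := F) (R := E) (K := κ) (algebraMap E κ).injective
      ((Algebra.linearMap E κ).compDer d0)
    refine ⟨δ, fun j' hj' => ?_⟩
    rw [hθ]
    refine hd0 c κ (mkD (fun r => δ (algebraMap (C c).R κ r)) (isD_left δ _) (fun f => ?_))
      (fun e => ?_) j' hj'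
    · rw [← IsScalarTower.algebraMap_apply]
      exact δ.map_algebraMap f
    · change δ (algebraMap (C c).R κ (algebraMap E (C c).R e)) = _
      rw [← IsScalarTower.algebraMap_apply, ← IsScalarTower.algebraMap_apply]
      exact hδ e
  choose Dj hDj using h5
  -- the vectors
  obtain ⟨v, hva, hvj⟩ : ∃ v : A ⊕ {j // j ∉ I} → Fin n → κ,
      (∀ a, v (Sum.inl a) = (C c).w (fun r => Da a (algebraMap (C c).R κ r))) ∧
      ∀ j, v (Sum.inr j) = (C c).w (fun r => Dj j (algebraMap (C c).R κ r)) :=
    ⟨Sum.elim (fun a => (C c).w (fun r => Da a (algebraMap (C c).R κ r)))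
      (fun j => (C c).w (fun r => Dj j (algebraMap (C c).R κ r))), fun _ => rfl, fun _ => rfl⟩
  have hθa : ∀ j a, θ j (v (Sum.inl a)) = 0 := by
    intro j a
    rw [hθ, hva, sub_eq_zero]
    exact h3 c κ (mkD (fun r => Da a (algebraMap (C c).R κ r)) (isD_left (Da a) _)
      (fun f => by
        rw [IsScalarTower.algebraMap_apply F E (C c).R]
        exact hDaE a _)) (fun e => hDaE a e) j
  have hθj : ∀ j' ∉ I, ∀ j, θ j' (v (Sum.inr j)) = if j' = (j : Fin n) then 1 else 0 := by
    intro j' hj' j
    rw [hvj, hDj j j' hj']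
  -- combinations of the derivations over `E`
  have hcomb : ∀ β : A → κ, (∑ a, β a • v (Sum.inl a)) =
      (C c).w (fun r => (∑ a, β a • Da a) (algebraMap (C c).R κ r)) := by
    intro β
    funext i
    have h6 : (fun r : (C c).R => (∑ a, β a • Da a) (algebraMap (C c).R κ r)) =
        fun r => ∑ a, β a * Da a (algebraMap (C c).R κ r) := by
      funext r
      rw [der_sum]
      exact Finset.sum_congr rfl fun a _ => by rw [Derivation.smul_apply, smul_eq_mul]
    rw [h6, Cht.w_sum, Finset.sum_apply]
    refine Finset.sum_congr rfl fun a _ => ?_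
    rw [Pi.smul_apply, smul_eq_mul, hva]
  have hsplit : ∀ β : A ⊕ {j // j ∉ I} → κ, ∀ j : {j // j ∉ I},
      θ j (∑ i, β i • v i) = β (Sum.inr j) := by
    intro β j
    rw [map_sum, Fintype.sum_sum_type]
    simp only [map_smul, hθa, smul_zero, Finset.sum_const_zero, zero_add]
    rw [Finset.sum_eq_single j]
    · rw [hθj j j.2, if_pos rfl, smul_eq_mul, mul_one]
    · intro j' _ hj'
      rw [hθj j j.2, if_neg (fun h => hj' (Subtype.ext h.symm)), smul_zero]
    · intro h; exact absurd (Finset.mem_univ j) h
  have hli : LinearIndependent κ v := by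
    rw [Fintype.linearIndependent_iff]
    intro β hβ
    have h6 : ∀ j, β (Sum.inr j) = 0 := by
      intro j
      rw [← hsplit β j, hβ, map_zero]
    rw [Fintype.sum_sum_type] at hβ
    simp only [h6, zero_smul, Finset.sum_const_zero, add_zero] at hβ
    rw [hcomb] at hβ
    have h7 : ∀ r : (C c).R, (∑ a, β (Sum.inl a) • Da a) (algebraMap (C c).R κ r) = 0 := by
      refine (C c).ext_w (d' := fun _ => 0) (isD_left (∑ a, β (Sum.inl a) • Da a) _)
        ⟨fun x y => by simp, fun x y => by simp⟩ (fun e => ?_) (fun i => ?_)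
      · rw [der_sum]
        refine Finset.sum_eq_zero fun a _ => ?_
        rw [Derivation.smul_apply, hDaE, smul_zero]
      · rw [congrFun hβ i]
        unfold Cht.w
        simp
    intro i
    rcases i with a | j
    · have h8 := h7 (s a)
      rw [der_sum, Finset.sum_eq_single a] at h8
      · rw [Derivation.smul_apply, (hDa a).2, if_pos rfl, smul_eq_mul, mul_one] at h8
        exact h8
      · intro b _ hb
        rw [Derivation.smul_apply, (hDa b).2, if_neg (Ne.symm hb), smul_zero]
      · intro h; exact absurd (Finset.mem_univ a) h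
    · exact h6 j
  have hcardι : Fintype.card (A ⊕ {j // j ∉ I}) = Fintype.card A + (n - I.card) := by
    rw [Fintype.card_sum, Fintype.card_subtype_compl, Fintype.card_fin, Fintype.card_coe]
  have hIn : I.card ≤ n := by
    have := Finset.card_le_univ I
    rwa [Fintype.card_fin] at this
  refine ⟨fun hn => ?_, fun Φ γ hΦd hΦ hDΦ hγ r hr => ?_⟩
  · let V : Submodule κ (Fin n → κ) :=
      { carrier := {u | ∃ δ : Derivation F κ κ, u = (C c).w (fun r => δ (algebraMap (C c).R κ r))}
        add_mem' := by
          rintro _ _ ⟨δ, rfl⟩ ⟨δ', rfl⟩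
          exact ⟨δ + δ', funext fun i => ((C c).w_add _ _ i).symm⟩
        zero_mem' := ⟨0, funext fun i => by unfold Cht.w; simp⟩
        smul_mem' := by
          rintro f _ ⟨δ, rfl⟩
          exact ⟨f • δ, funext fun i => ((C c).w_smul f _ i).symm⟩ }
    obtain ⟨i0, hi0⟩ := exists_proj hn V v hli (fun i => by
      rcases i with a | j
      · refine ⟨(Da a).restrictScalars F, ?_⟩
        rw [hva]
        rfl
      · exact ⟨Dj j, hvj j⟩) (by rw [hcardι]; omega)
    refine ⟨i0, fun i hi => ?_⟩
    obtain ⟨u, ⟨δ, rfl⟩, hu⟩ := hi0 i hi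
    exact ⟨δ, hu⟩
  · -- the derivation of `E`
    have hinjE : Function.Injective (algebraMap E U) := (algebraMap E U).injective
    choose e' he' using g.hE
    let dE : Derivation k E E := Derivation.mk'
      { toFun := e'
        map_add' := fun x y => by
          apply hinjE
          rw [← he', map_add, map_add, map_add, he', he']
        map_smul' := fun t x => by
          apply hinjE
          rw [RingHom.id_apply, Algebra.smul_def, ← he', map_mul, D.leibniz,
            ← IsScalarTower.algebraMap_apply k E U, D.map_algebraMap, smul_zero, add_zero,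
            smul_eq_mul, he', Algebra.smul_def, map_mul, ← IsScalarTower.algebraMap_apply k E U] }
      (fun x y => by
        apply hinjE
        change algebraMap E U (e' (x * y)) = algebraMap E U (x • e' y + y • e' x)
        rw [← he', map_mul, D.leibniz, smul_eq_mul, smul_eq_mul, smul_eq_mul, smul_eq_mul, map_add,
          map_mul, map_mul, he', he'])
    obtain ⟨δ1, hδ1⟩ := exists_ext (k := k) (R := E) (K := κ) (algebraMap E κ).injective
      ((Algebra.linearMap E κ).compDer dE)
    have hδ1' : ∀ e, δ1 (algebraMap E κ e) = algebraMap E κ (e' e) := hδ1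
    obtain ⟨DR, hDR⟩ : ∃ DR : Derivation k (C c).R (C c).R, ∀ r, DR r = ⟨D r, g.stab c r r.2⟩ :=
      ⟨EC.resA D (C c).R (g.stab c), fun r => rfl⟩
    rw [← hDR] at hDΦ ⊢
    have hDRE : ∀ e, DR (algebraMap E (C c).R e) = algebraMap E (C c).R (e' e) := fun e => by
      rw [hDR]
      exact Subtype.ext (he' e)
    have hD1 : IsD (algebraMap (C c).R κ) (fun r => δ1 (algebraMap (C c).R κ r)) := isD_left δ1 _
    have hD2 : IsD (algebraMap (C c).R κ) (fun r => algebraMap (C c).R κ (DR r)) := isD_right DR _
    have hρE : ∀ e : E, δ1 (algebraMap (C c).R κ (algebraMap E (C c).R e)) -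
        algebraMap (C c).R κ (DR (algebraMap E (C c).R e)) = 0 := by
      intro e
      rw [hDRE, ← IsScalarTower.algebraMap_apply, hδ1', ← IsScalarTower.algebraMap_apply, sub_self]
    let ρ : Derivation F (C c).R κ := mkD _ (hD1.sub hD2) (fun f => by
      rw [IsScalarTower.algebraMap_apply F E (C c).R]
      exact hρE _)
    have hρ : ∀ r, ρ r = δ1 (algebraMap (C c).R κ r) - algebraMap (C c).R κ (DR r) := fun r => rfl
    have hθρ : ∀ j, θ j ((C c).w ρ) = 0 := by
      intro j
      rw [hθ, sub_eq_zero]
      exact h3 c κ ρ hρE j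
    have hgρ : ∑ i, algebraMap (C c).R κ (γ i) * (C c).w ρ i = 0 := by
      rw [← hΦd, hρ, hΦ, hDΦ, map_zero, sub_zero]
    have hgF : ∀ δ : Derivation F κ κ, ∑ i, algebraMap (C c).R κ (γ i) *
        (C c).w (fun r => δ (algebraMap (C c).R κ r)) i = 0 := by
      intro δ
      have h6 := hΦd (mkD (fun r => δ (algebraMap (C c).R κ r)) (isD_left δ _) (fun f => by
        rw [← IsScalarTower.algebraMap_apply]
        exact δ.map_algebraMap f))
      have h7 : δ (algebraMap (C c).R κ Φ) = 0 := by rw [hΦ, map_zero]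
      exact h6.symm.trans h7
    -- the dependence
    have hdep : ¬ LinearIndependent κ (fun o : Option (A ⊕ {j // j ∉ I}) =>
        o.elim ((C c).w ρ) v) := by
      refine dep_of_orth (g := fun i => algebraMap (C c).R κ (γ i)) ?_ _ ?_ ?_
      · intro h0
        obtain ⟨i, hi⟩ := hγ
        exact hi (congrFun h0 i)
      · rintro (_ | a | j)
        · exact hgρ
        · change ∑ i, algebraMap (C c).R κ (γ i) * v (Sum.inl a) i = 0
          rw [hva]
          exact hgF ((Da a).restrictScalars F)
        · change ∑ i, algebraMap (C c).R κ (γ i) * v (Sum.inr j) i = 0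
          rw [hvj]
          exact hgF (Dj j)
      · rw [Fintype.card_option, hcardι]
        omega
    have hmem : (C c).w ρ ∈ Submodule.span κ (Set.range v) := by
      by_contra hno
      apply hdep
      rw [linearIndependent_option]
      exact ⟨hli, hno⟩
    rw [Submodule.mem_span_range_iff_exists_fun] at hmem
    obtain ⟨β, hβ⟩ := hmem
    have h6 : ∀ j, β (Sum.inr j) = 0 := by
      intro j
      rw [← hsplit β j, hβ, hθρ]
    rw [Fintype.sum_sum_type] at hβ
    simp only [h6, zero_smul, Finset.sum_const_zero, add_zero] at hβ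
    rw [hcomb] at hβ
    have h7 : ∀ r : (C c).R, δ1 (algebraMap (C c).R κ r) -
        (∑ a, β (Sum.inl a) • Da a) (algebraMap (C c).R κ r) = algebraMap (C c).R κ (DR r) := by
      refine (C c).ext_w (hD1.sub (isD_left (∑ a, β (Sum.inl a) • Da a) _)) hD2 (fun e => ?_)
        (fun i => ?_)
      · have h8 := hρE e
        rw [sub_eq_zero] at h8
        rw [h8, der_sum, Finset.sum_eq_zero, sub_zero]
        intro a _
        rw [Derivation.smul_apply, hDaE, smul_zero]
      · rw [Cht.w_sub, congrFun hβ i]
        have h8 : (C c).w ρ i = (C c).w (fun r => δ1 (algebraMap (C c).R κ r)) i -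
            (C c).w (fun r => algebraMap (C c).R κ (DR r)) i := (C c).w_sub _ _ i
        rw [h8]
        ring
    rw [← h7, hr, map_zero, map_zero, sub_zero]

end Pool.Agent.K1H80.EG
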