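import Mathlib

/-!
# Linear algebra
-/

set_option autoImplicit false
set_option linter.unusedSectionVars false

namespace Pool.Agent.K1H80.EG

open scoped Classical

variable {K : Type*} [Field K]

/-- a subspace of a coordinate space is the graph of a linear map -/
theorem exists_graph {n : ℕ} (V : Submodule K (Fin n → K)) :
    ∃ (I : Finset (Fin n)) (v : Fin n → Fin n → K), (∀ i ∈ I, v i ∈ V) ∧
      (∀ i ∈ I, ∀ j ∈ I, v i j = if j = i then 1 else 0) ∧
      ∀ u ∈ V, ∀ j, u j = ∑ i ∈ I, u i * v i j := by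
  obtain ⟨I, ⟨v, hv1, hv2⟩, hmax⟩ := exists_maximal_of_wellFoundedGT
    (fun I : Finset (Fin n) => ∃ v : Fin n → Fin n → K, (∀ i ∈ I, v i ∈ V) ∧
      ∀ i ∈ I, ∀ j ∈ I, v i j = if j = i then 1 else 0) ⟨∅, 0, by simp, by simp⟩
  have key : ∀ u ∈ V, (∀ i ∈ I, u i = 0) → u = 0 := by
    intro u hu h0
    funext j
    by_contra hj
    have hjI : j ∉ I := fun h => hj (h0 j h)
    have hle : I ≤ insert j I := Finset.subset_insert _ _
    obtain ⟨v', hv'⟩ : ∃ v' : Fin n → Fin n → K, ∀ i, v' i = if i = j then (u j)⁻¹ • u else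
      v i - (v i j * (u j)⁻¹) • u := ⟨_, fun i => rfl⟩
    have hj' : u j ≠ 0 := hj
    have := hmax (y := insert j I) ⟨v', fun i hi => ?_, fun i hi l hl => ?_⟩ hle
    · exact hjI (this (Finset.mem_insert_self j I))
    · by_cases hij : i = j
      · rw [hv', if_pos hij]
        exact V.smul_mem _ hu
      · have hi' : i ∈ I := (Finset.mem_insert.1 hi).resolve_left hij
        rw [hv', if_neg hij]
        exact V.sub_mem (hv1 i hi') (V.smul_mem _ hu)
    · rw [hv']
      by_cases hij : i = j
      · rw [if_pos hij, Pi.smul_apply, smul_eq_mul]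
        by_cases hlj : l = j
        · rw [hlj, hij, if_pos rfl, inv_mul_cancel₀ hj']
        · have hl' : l ∈ I := (Finset.mem_insert.1 hl).resolve_left hlj
          rw [h0 l hl', mul_zero, if_neg (by rw [hij]; exact hlj)]
      · have hi' : i ∈ I := (Finset.mem_insert.1 hi).resolve_left hij
        rw [if_neg hij, Pi.sub_apply, Pi.smul_apply, smul_eq_mul]
        by_cases hlj : l = j
        · rw [hlj, if_neg (Ne.symm hij), mul_assoc, inv_mul_cancel₀ hj', mul_one, sub_self]
        · have hl' : l ∈ I := (Finset.mem_insert.1 hl).resolve_left hlj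
          rw [hv2 i hi' l hl', h0 l hl', mul_zero, sub_zero]
  refine ⟨I, v, hv1, hv2, fun u hu j => ?_⟩
  have h1 := key (u - ∑ i ∈ I, u i • v i) (V.sub_mem hu (V.sum_mem fun i hi =>
    V.smul_mem _ (hv1 i hi))) (fun l hl => by
      rw [Pi.sub_apply, Finset.sum_apply, Finset.sum_eq_single l]
      · rw [Pi.smul_apply, smul_eq_mul, hv2 l hl l hl, if_pos rfl, mul_one, sub_self]
      · intro i hi hil
        rw [Pi.smul_apply, smul_eq_mul, hv2 i hi l hl, if_neg (Ne.symm hil), mul_zero]
      · intro h; exact absurd hl h)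
  have h2 := congrFun h1 j
  rw [Pi.sub_apply, Finset.sum_apply, Pi.zero_apply, sub_eq_zero] at h2
  exact h2

/-- a subspace of codimension at most one projects onto a coordinate hyperplane -/
theorem exists_proj {n : ℕ} (hn : 0 < n) (V : Submodule K (Fin n → K)) {ι : Type*} [Fintype ι]
    (v : ι → Fin n → K) (hv : LinearIndependent K v) (hV : ∀ i, v i ∈ V)
    (hcard : n ≤ Fintype.card ι + 1) :
    ∃ i0 : Fin n, ∀ i, i ≠ i0 → ∃ u ∈ V, ∀ j, j ≠ i0 → u j = if j = i then 1 else 0 := by
  obtain ⟨I, w, hw1, hw2, hw3⟩ := exists_graph V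
  -- the dimension of `V` is the cardinality of `I`
  have h1 : Fintype.card ι ≤ I.card := by
    let f : (Fin n → K) →ₗ[K] (I → K) := LinearMap.funLeft K K (fun i : I => (i : Fin n))
    have h2 : LinearIndependent K (fun i => f (v i)) := by
      rw [Fintype.linearIndependent_iff] at hv ⊢
      intro g hg
      apply hv
      have h3 : ∑ i, g i • v i ∈ V := V.sum_mem fun i _ => V.smul_mem _ (hV i)
      funext j
      rw [hw3 _ h3 j, Pi.zero_apply]
      refine Finset.sum_eq_zero fun i hi => ?_
      have h4 := congrFun hg ⟨i, hi⟩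
      rw [Finset.sum_apply, Pi.zero_apply] at h4
      have h5 : (∑ l, g l • v l) i = 0 := by
        rw [Finset.sum_apply, ← h4]
        rfl
      rw [h5, zero_mul]
    have := h2.fintype_card_le_finrank
    simpa using this
  have h2 : n ≤ I.card + 1 := by omega
  -- the complement of `I` has at most one element
  have h3 : Iᶜ.card ≤ 1 := by
    rw [Finset.card_compl, Fintype.card_fin]
    omega
  have h4 : ∃ i0 : Fin n, ∀ i, i ≠ i0 → i ∈ I := by
    by_cases h : Iᶜ = ∅
    · refine ⟨⟨0, hn⟩, fun i _ => ?_⟩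
      by_contra hi
      have : i ∈ Iᶜ := Finset.mem_compl.2 hi
      rw [h] at this
      exact absurd this (Finset.notMem_empty i)
    · obtain ⟨i0, hi0⟩ := Finset.nonempty_iff_ne_empty.2 h
      refine ⟨i0, fun i hi => ?_⟩
      by_contra hi2
      exact hi (Finset.card_le_one.1 h3 i (Finset.mem_compl.2 hi2) i0 hi0)
  obtain ⟨i0, hi0⟩ := h4
  refine ⟨i0, fun i hi => ⟨w i, hw1 i (hi0 i hi), fun j hj => hw2 i (hi0 i hi) j (hi0 j hj)⟩⟩

/-- `n` vectors which are orthogonal to a nonzero vector are dependent -/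
theorem dep_of_orth {n : ℕ} {g : Fin n → K} (hg : g ≠ 0) {ι : Type*} [Fintype ι]
    (v : ι → Fin n → K) (hv : ∀ i, ∑ j, g j * v i j = 0) (hcard : n ≤ Fintype.card ι) :
    ¬ LinearIndependent K v := by
  intro h
  let φ : (Fin n → K) →ₗ[K] K := Fintype.linearCombination K g
  have hφ : ∀ u, φ u = ∑ j, g j * u j := by
    intro u
    rw [Fintype.linearCombination_apply]
    exact Finset.sum_congr rfl fun j _ => by rw [smul_eq_mul, mul_comm]
  have h1 : Submodule.span K (Set.range v) = ⊤ := by
    refine h.span_eq_top_of_card_eq_finrank' ?_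
    refine le_antisymm ?_ ?_
    · have := h.fintype_card_le_finrank
      exact this
    · rw [Module.finrank_fin_fun]
      exact hcard
  have h2 : φ = 0 := by
    refine LinearMap.ext_on h1 ?_
    rintro _ ⟨i, rfl⟩
    rw [hφ, hv, LinearMap.zero_apply]
  apply hg
  funext j
  have h3 := LinearMap.congr_fun h2 (Pi.single j 1)
  rw [hφ, LinearMap.zero_apply, Finset.sum_eq_single j] at h3
  · rwa [Pi.single_eq_same, mul_one] at h3
  · intro l _ hl
    rw [Pi.single_eq_of_ne hl, mul_zero]
  · intro h; exact absurd (Finset.mem_univ j) h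

/-- a proper subspace of a coordinate space is annihilated by a nonzero vector -/
theorem eq_top_of_annih {ι : Type*} [Fintype ι] (V : Submodule K (ι → K))
    (h : ∀ ν : ι → K, (∀ u ∈ V, ∑ j, ν j * u j = 0) → ν = 0) : V = ⊤ := by
  by_contra hne
  obtain ⟨φ, hφ0, hφ⟩ := Submodule.exists_le_ker_of_lt_top V (lt_top_iff_ne_top.2 hne)
  apply hφ0
  have hφs : ∀ u, φ u = ∑ j, φ (Pi.single j 1) * u j := by
    intro u
    have h1 : u = ∑ j, u j • (Pi.single j (1 : K) : ι → K) := by
      funext l
      rw [Finset.sum_apply, Finset.sum_eq_single l]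
      · rw [Pi.smul_apply, Pi.single_eq_same, smul_eq_mul, mul_one]
      · intro j _ hj
        rw [Pi.smul_apply, Pi.single_eq_of_ne (Ne.symm hj), smul_zero]
      · intro h; exact absurd (Finset.mem_univ l) h
    conv_lhs => rw [h1]
    rw [map_sum]
    refine Finset.sum_congr rfl fun j _ => ?_
    rw [φ.map_smul, smul_eq_mul, mul_comm]
  have h1 : (fun j => φ (Pi.single j 1)) = 0 := by
    apply h
    intro u hu
    have h2 : φ u = 0 := hφ hu
    rw [← h2, hφs u]
  refine LinearMap.ext fun u => ?_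
  rw [hφs, LinearMap.zero_apply]
  refine Finset.sum_eq_zero fun j _ => ?_
  have h3 : φ (Pi.single j 1) = 0 := congrFun h1 j
  rw [h3, zero_mul]

end Pool.Agent.K1H80.EG
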