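import Pool.Agent.K1H80.EG.Tf
import Pool.Agent.K1H80.EC.Simple
import Pool.Agent.K1H80.EG.La

/-!
# Relations between the invariant differentials of a point, and their specialization
-/

set_option autoImplicit false
set_option linter.unusedSectionVars false

namespace Pool.Agent.K1H80.EG

open Pool.Agent.K1H80.EC (IsD isD_left isD_right exists_ext exists_der_ext)
open KaehlerDifferential TensorProduct
open scoped Classical

/-- A framed chart: a finitely generated subalgebra of `U` over `E` with `n` differential forms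
`∑ η i t dz t` and the dual vector fields `∑ ξ i t ∂/∂z t`. -/
structure Cht (k E U : Type) [Field k] [Field E] [Field U] [Algebra k E] [Algebra k U]
    [Algebra E U] [IsScalarTower k E U] (n : ℕ) where
  R : Subalgebra E U
  σ : Type
  fσ : Fintype σ
  z : σ → R
  ξ : Fin n → σ → R
  η : Fin n → σ → R
  gen : Algebra.adjoin E (Set.range z) = ⊤
  frame : ∀ (K : Type) [Field K] [CharZero K] (φ : R →+* K) (δ : R → K), IsD φ δ →
    (∀ t : k, δ (algebraMap k R t) = 0) →
      ∀ s, δ (z s) = ∑ i, φ (ξ i s) * ∑ t, φ (η i t) * δ (z t)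

attribute [instance] Cht.fσ

variable {k F E U : Type} [Field k] [CharZero k] [Field F] [Field E] [Field U] [Algebra k F]
  [Algebra k E] [Algebra k U] [Algebra F E] [Algebra F U] [Algebra E U] [IsScalarTower k F E]
  [IsScalarTower k E U] [IsScalarTower F E U] {n : ℕ}

/-- the values of the forms at a derivation -/
noncomputable def Cht.w (C : Cht k E U n) {K : Type} [Field K] [Algebra C.R K] (d : C.R → K)
    (i : Fin n) : K := ∑ t, algebraMap C.R K (C.η i t) * d (C.z t)

/-- A point with framed charts `C c`, generic over `F`, over a differential field. -/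
structure Geo (F : Type) [Field F] [Algebra k F] [Algebra F E] [Algebra F U] [IsScalarTower k F E]
    [IsScalarTower F E U] (D : Derivation k U U) {𝒞 : Type} (C : 𝒞 → Cht k E U n)
    (W : Derivation k U U → Fin n → U) : Prop where
  ne : Nonempty 𝒞
  hE : ∀ e : E, ∃ e' : E, D (algebraMap E U e) = algebraMap E U e'
  hC : ∀ z : U, D z = 0 → ∃ e : E, algebraMap E U e = z
  stab : ∀ c, ∀ r ∈ (C c).R, D r ∈ (C c).R
  simple : ∀ c (J : Ideal (C c).R), (∀ r : (C c).R, r ∈ J → (⟨D r, stab c r r.2⟩ : (C c).R) ∈ J) →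
    J ≠ ⊥ → J = ⊤
  inter : ∀ z : U, (∀ c, z ∈ (C c).R) → ∃ e : E, algebraMap E U e = z
  hW : ∀ c D' i, W D' i = ∑ t, ((C c).η i t : U) * D' ((C c).z t)
  closed : ∀ D' : Derivation k U U, (∀ e : E, D' (algebraMap E U e) = 0) →
    ∀ i, W ⁅D, D'⁆ i = D (W D' i)
  gen : ∀ v : Fin n → U, ∃ D' : Derivation k U U, (∀ f : F, D' (algebraMap F U f) = 0) ∧ W D' = v

section one

variable (C : Cht k E U n)

theorem Cht.ft : Algebra.FiniteType E C.R := by
  refine ⟨⟨(Set.range C.z).toFinset, ?_⟩⟩
  rw [Set.coe_toFinset]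
  exact C.gen

/-- the form as a differential -/
noncomputable def Cht.om (F' : Type) [Field F'] [Algebra F' C.R] (i : Fin n) : Ω[C.R⁄F'] :=
  ∑ t, C.η i t • KaehlerDifferential.D F' C.R (C.z t)

theorem Cht.lift_om {F' : Type} [Field F'] [Algebra F' C.R] {K : Type} [Field K] [Algebra C.R K]
    [Algebra F' K] [IsScalarTower F' C.R K] (d : Derivation F' C.R K) (i : Fin n) :
    d.liftKaehlerDifferential (C.om F' i) = C.w d i := by
  unfold Cht.om Cht.w
  rw [map_sum]
  refine Finset.sum_congr rfl fun t _ => ?_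
  rw [map_smul, d.liftKaehlerDifferential_comp_D, Algebra.smul_def]

/-- the values of the forms determine a derivation -/
theorem Cht.ext_w {K : Type} [Field K] [CharZero K] [Algebra C.R K] {d d' : C.R → K}
    (hd : IsD (algebraMap C.R K) d) (hd' : IsD (algebraMap C.R K) d')
    (hE : ∀ e : E, d (algebraMap E C.R e) = d' (algebraMap E C.R e))
    (hw : ∀ i, C.w d i = C.w d' i) (r : C.R) : d r = d' r := by
  have h := hd.sub hd'
  have hz : ∀ s, d (C.z s) - d' (C.z s) = 0 := by
    intro s
    have h1 := C.frame K (algebraMap C.R K) _ h (fun t => by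
      have h2 : algebraMap k C.R t = algebraMap E C.R (algebraMap k E t) :=
        IsScalarTower.algebraMap_apply k E C.R t
      change d _ - d' _ = 0
      rw [h2, hE, sub_self]) s
    rw [h1]
    refine Finset.sum_eq_zero fun i _ => ?_
    have h3 : ∑ t, algebraMap C.R K (C.η i t) * (d (C.z t) - d' (C.z t)) = 0 := by
      have h4 := hw i
      unfold Cht.w at h4
      simp only [mul_sub]
      rw [Finset.sum_sub_distrib, h4, sub_self]
    rw [h3, mul_zero]
  have hr : r ∈ Algebra.adjoin E (Set.range C.z) := by rw [C.gen]; trivial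
  induction hr using Algebra.adjoin_induction with
  | mem x hx =>
    obtain ⟨s, rfl⟩ := hx
    exact sub_eq_zero.1 (hz s)
  | algebraMap e => exact hE e
  | add x y _ _ h1 h2 => rw [hd.add, hd'.add, h1, h2]
  | mul x y _ _ h1 h2 => rw [hd.mul, hd'.mul, h1, h2]

end one

variable {D : Derivation k U U} {𝒞 : Type} {C : 𝒞 → Cht k E U n}
  {W : Derivation k U U → Fin n → U}

theorem Geo.W_w (g : Geo F D C W) (c : 𝒞) (D' : Derivation k U U) (i : Fin n) :
    W D' i = (C c).w (fun r => D' (r : U)) i := g.hW c D' i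

theorem Geo.W_add (g : Geo F D C W) (D' D'' : Derivation k U U) (i : Fin n) :
    W (D' + D'') i = W D' i + W D'' i := by
  obtain ⟨c⟩ := g.ne
  rw [g.hW c, g.hW c, g.hW c, ← Finset.sum_add_distrib]
  refine Finset.sum_congr rfl fun t _ => ?_
  rw [Derivation.add_apply, mul_add]

theorem Geo.W_smul (g : Geo F D C W) (f : U) (D' : Derivation k U U) (i : Fin n) :
    W (f • D') i = f * W D' i := by
  obtain ⟨c⟩ := g.ne
  rw [g.hW c, g.hW c, Finset.mul_sum]
  refine Finset.sum_congr rfl fun t _ => ?_
  rw [Derivation.smul_apply, smul_eq_mul]; ring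

theorem Geo.W_zero (g : Geo F D C W) (i : Fin n) : W 0 i = 0 := by
  obtain ⟨c⟩ := g.ne
  rw [g.hW c]
  exact Finset.sum_eq_zero fun t _ => by rw [Derivation.zero_apply, mul_zero]

/-- the values of the derivations over `E` -/
def Geo.WE (g : Geo F D C W) : Submodule U (Fin n → U) where
  carrier := {v | ∃ D' : Derivation k U U, (∀ e : E, D' (algebraMap E U e) = 0) ∧ W D' = v}
  add_mem' := by
    rintro _ _ ⟨D', h1, rfl⟩ ⟨D'', h2, rfl⟩
    refine ⟨D' + D'', fun e => by rw [Derivation.add_apply, h1, h2, add_zero], ?_⟩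
    funext i
    exact g.W_add D' D'' i
  zero_mem' := ⟨0, fun e => rfl, funext fun i => g.W_zero i⟩
  smul_mem' := by
    rintro f _ ⟨D', h1, rfl⟩
    refine ⟨f • D', fun e => by rw [Derivation.smul_apply, h1, smul_zero], ?_⟩
    funext i
    exact g.W_smul f D' i

/-- **The relations have constant coefficients.** -/
theorem Geo.rel (g : Geo F D C W) : ∃ (I : Finset (Fin n)) (l : Fin n → Fin n → E),
    (∀ i ∈ I, ∃ D' : Derivation k U U, (∀ e : E, D' (algebraMap E U e) = 0) ∧
      ∀ j, W D' j = algebraMap E U (l i j)) ∧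
    (∀ i ∈ I, ∀ j ∈ I, l i j = if j = i then 1 else 0) ∧
    ∀ D' : Derivation k U U, (∀ e : E, D' (algebraMap E U e) = 0) →
      ∀ j, W D' j = ∑ i ∈ I, W D' i * algebraMap E U (l i j) := by
  obtain ⟨I, v, h1, h2, h3⟩ := exists_graph g.WE
  have h4 : ∀ i ∈ I, ∀ j, D (v i j) = 0 := by
    intro i hi
    obtain ⟨D', hD', hv⟩ := h1 i hi
    have h5 : ∀ e : E, ⁅D, D'⁆ (algebraMap E U e) = 0 := by
      intro e
      rw [Derivation.commutator_apply, hD', map_zero]
      obtain ⟨e', he'⟩ := g.hE e
      rw [he', hD', sub_self]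
    have h6 : ∀ j, W ⁅D, D'⁆ j = D (v i j) := fun j => by
      rw [g.closed D' hD' j, hv]
    have h7 : (fun j => D (v i j)) ∈ g.WE := ⟨⁅D, D'⁆, h5, funext h6⟩
    intro j
    have h8 : D (v i j) = ∑ i' ∈ I, D (v i i') * v i' j := h3 _ h7 j
    rw [h8]
    refine Finset.sum_eq_zero fun l hl => ?_
    rw [h2 i hi l hl]
    split_ifs
    · rw [D.map_one_eq_zero, zero_mul]
    · rw [map_zero, zero_mul]
  have h5 : ∀ i j, ∃ e : E, i ∈ I → algebraMap E U e = v i j := by
    intro i j
    by_cases hi : i ∈ I
    · obtain ⟨e, he⟩ := g.hC _ (h4 i hi j)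
      exact ⟨e, fun _ => he⟩
    · exact ⟨0, fun h => absurd h hi⟩
  choose l hl using h5
  refine ⟨I, l, fun i hi => ?_, fun i hi j hj => ?_, fun D' hD' j => ?_⟩
  · obtain ⟨D', hD', hv⟩ := h1 i hi
    exact ⟨D', hD', fun j => by rw [hl i j hi, hv]⟩
  · apply (algebraMap E U).injective
    rw [hl i j hi, h2 i hi j hj]
    split_ifs
    · rw [map_one]
    · rw [map_zero]
  · rw [h3 _ ⟨D', hD', rfl⟩ j]
    exact Finset.sum_congr rfl fun i hi => by rw [hl i j hi]

instance towFR (C : Cht k E U n) : IsScalarTower F E C.R := IsScalarTower.of_algebraMap_eq fun f =>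
  Subtype.ext (IsScalarTower.algebraMap_apply F E U f)

instance towFRU (C : Cht k E U n) : IsScalarTower F C.R U := IsScalarTower.of_algebraMap_eq fun _ => rfl

/-- **The relations hold for all derivations of the charts**, up to derivations of `E`. -/
theorem Geo.relR (g : Geo F D C W) {I : Finset (Fin n)} {l : Fin n → Fin n → E}
    (hI : ∀ D' : Derivation k U U, (∀ e : E, D' (algebraMap E U e) = 0) →
      ∀ j, W D' j = ∑ i ∈ I, W D' i * algebraMap E U (l i j)) (c : 𝒞) (j : Fin n) :
    ∃ (N : ℕ) (r : Fin N → (C c).R) (e : Fin N → E), ∀ (K : Type) [Field K] [Algebra (C c).R K]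
      [Algebra F K] [IsScalarTower F (C c).R K] (d : Derivation F (C c).R K),
      (C c).w d j - ∑ i ∈ I, (C c).w d i * algebraMap (C c).R K (algebraMap E (C c).R (l i j)) =
        ∑ s, algebraMap (C c).R K (r s) * d (algebraMap E (C c).R (e s)) := by
  have hcU : CharZero U := charZero_of_injective_algebraMap (algebraMap k U).injective
  have hft := (C c).ft
  -- the relation in the differentials over `E`
  have h1 : (C c).om E j - ∑ i ∈ I, algebraMap E (C c).R (l i j) • (C c).om E i = 0 := by
    obtain ⟨r, hr, hr2⟩ := tors_of_forall (E := E) (R := (C c).R) (U := U) Subtype.val_injective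
      (x := (C c).om E j - ∑ i ∈ I, algebraMap E (C c).R (l i j) • (C c).om E i) (by
      intro d
      obtain ⟨D1, hD1⟩ := exists_ext (k := E) (R := (C c).R) (K := U) Subtype.val_injective d
      rw [map_sub, map_sum, (C c).lift_om]
      simp only [LinearMap.map_smul, (C c).lift_om]
      have h2 : ∀ i, (C c).w d i = W (D1.restrictScalars k) i := by
        intro i
        rw [g.W_w c]
        unfold Cht.w
        refine Finset.sum_congr rfl fun t _ => ?_
        congr 1
        exact (hD1 _).symm
      simp only [h2]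
      rw [hI (D1.restrictScalars k) (fun e => D1.map_algebraMap e) j, sub_eq_zero]
      refine Finset.sum_congr rfl fun i _ => ?_
      rw [Algebra.smul_def, mul_comm]
      rfl)
    refine tf (E := E) (R := (C c).R) (EC.resA D (C c).R (g.stab c) |>.restrictScalars ℤ) ?_ ?_ hr hr2
    · intro e
      obtain ⟨e', he'⟩ := g.hE e
      exact ⟨e', Subtype.ext he'⟩
    · intro J hJ hJ0
      exact g.simple c J (fun r hr => hJ r hr) hJ0
  -- the relation in the differentials over `F`
  have h2 : KaehlerDifferential.map F E (C c).R (C c).R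
      ((C c).om F j - ∑ i ∈ I, algebraMap E (C c).R (l i j) • (C c).om F i) = 0 := by
    have h3 : ∀ i, KaehlerDifferential.map F E (C c).R (C c).R ((C c).om F i) = (C c).om E i := by
      intro i
      unfold Cht.om
      rw [map_sum]
      refine Finset.sum_congr rfl fun t _ => ?_
      rw [map_smul, KaehlerDifferential.map_D]
      rfl
    rw [map_sub, map_sum, h3]
    simp only [LinearMap.map_smul, h3]
    exact h1
  obtain ⟨x, hx⟩ := (KaehlerDifferential.exact_mapBaseChange_map F E (C c).R _).1 h2
  have h3 : ∀ x : (C c).R ⊗[E] Ω[E⁄F], ∃ (N : ℕ) (r : Fin N → (C c).R) (e : Fin N → E),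
      KaehlerDifferential.mapBaseChange F E (C c).R x =
        ∑ s, r s • KaehlerDifferential.D F (C c).R (algebraMap E (C c).R (e s)) := by
    have hadd : ∀ y z : Ω[(C c).R⁄F], (∃ (N : ℕ) (r : Fin N → (C c).R) (e : Fin N → E), y =
        ∑ s, r s • KaehlerDifferential.D F (C c).R (algebraMap E (C c).R (e s))) →
        (∃ (N : ℕ) (r : Fin N → (C c).R) (e : Fin N → E), z =
        ∑ s, r s • KaehlerDifferential.D F (C c).R (algebraMap E (C c).R (e s))) →
        (∃ (N : ℕ) (r : Fin N → (C c).R) (e : Fin N → E), y + z =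
        ∑ s, r s • KaehlerDifferential.D F (C c).R (algebraMap E (C c).R (e s))) := by
      rintro _ _ ⟨N, r, e, rfl⟩ ⟨N', r', e', rfl⟩
      refine ⟨N + N', Fin.append r r', Fin.append e e', ?_⟩
      rw [Fin.sum_univ_add]
      simp only [Fin.append_left, Fin.append_right]
    intro x
    induction x using TensorProduct.induction_on with
    | zero => exact ⟨0, Fin.elim0, Fin.elim0, by simp⟩
    | add y z hy hz =>
      rw [map_add]
      exact hadd _ _ hy hz
    | tmul r y =>
      rw [KaehlerDifferential.mapBaseChange_tmul]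
      have hy : y ∈ Submodule.span E (Set.range (KaehlerDifferential.D F E)) := by
        rw [KaehlerDifferential.span_range_derivation]; trivial
      induction hy using Submodule.span_induction with
      | mem y hy =>
        obtain ⟨e, rfl⟩ := hy
        refine ⟨1, fun _ => r, fun _ => e, ?_⟩
        rw [KaehlerDifferential.map_D]
        simp
      | zero => exact ⟨0, Fin.elim0, Fin.elim0, by simp⟩
      | add y z _ _ hy hz =>
        rw [map_add, smul_add]
        exact hadd _ _ hy hz
      | smul e y _ hy =>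
        obtain ⟨N, r', e', h4⟩ := hy
        refine ⟨N, fun s => algebraMap E (C c).R e * r' s, e', ?_⟩
        rw [LinearMap.map_smul_of_tower]
        have h5 : r • e • (KaehlerDifferential.map F F E (C c).R) y =
            algebraMap E (C c).R e • (r • (KaehlerDifferential.map F F E (C c).R) y) := by
          rw [← algebraMap_smul (C c).R e, smul_comm]
        rw [h5, h4, Finset.smul_sum]
        refine Finset.sum_congr rfl fun s _ => ?_
        rw [mul_smul]
  obtain ⟨N, r, e, h4⟩ := h3 x
  refine ⟨N, r, e, fun K _ _ _ _ d => ?_⟩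
  have h5 := congrArg d.liftKaehlerDifferential (hx.symm.trans h4)
  rw [map_sub, map_sum, map_sum, (C c).lift_om] at h5
  simp only [LinearMap.map_smul, (C c).lift_om, d.liftKaehlerDifferential_comp_D,
    Algebra.smul_def] at h5
  rw [← h5]
  congr 1
  refine Finset.sum_congr rfl fun i _ => ?_
  rw [mul_comm]

end Pool.Agent.K1H80.EG
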