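import Pool.Agent.K1H80.EG.Gi

/-!
# Derivations of the small field
-/

set_option autoImplicit false
set_option linter.unusedSectionVars false

namespace Pool.Agent.K1H80.EG

open Pool.Agent.K1H80.EC (IsD isD_left isD_right exists_ext exists_der_ext)
open scoped Classical

variable {k F E U : Type} [Field k] [CharZero k] [Field F] [Field E] [Field U] [Algebra k F]
  [Algebra k E] [Algebra k U] [Algebra F E] [Algebra F U] [Algebra E U] [IsScalarTower k F E]
  [IsScalarTower k E U] [IsScalarTower F E U] {n : ℕ}

variable {D : Derivation k U U} {𝒞 : Type} {C : 𝒞 → Cht k E U n}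
  {W : Derivation k U U → Fin n → U}

/-- a derivation over a subfield -/
noncomputable def toF (F : Type) [Field F] [Algebra F U] (D' : Derivation k U U)
    (h : ∀ f : F, D' (algebraMap F U f) = 0) : Derivation F U U :=
  Derivation.mk'
    { toFun := D'
      map_add' := fun x y => map_add D' x y
      map_smul' := fun f x => by
        rw [RingHom.id_apply, Algebra.smul_def, D'.leibniz, h, smul_zero, add_zero, smul_eq_mul,
          Algebra.smul_def] }
    (fun x y => D'.leibniz x y)

theorem toF_apply {F : Type} [Field F] [Algebra F U] (D' : Derivation k U U)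
    (h : ∀ f : F, D' (algebraMap F U f) = 0) (x : U) : toF F D' h x = D' x := rfl

/-- restriction to a subalgebra -/
noncomputable def toR {F : Type} [Field F] [Algebra F E] [Algebra F U] [IsScalarTower F E U]
    (R : Subalgebra E U) (D' : Derivation F U U) : Derivation F R U :=
  Derivation.mk'
    { toFun := fun r => D' (r : U)
      map_add' := fun x y => map_add D' (x : U) (y : U)
      map_smul' := fun f x => by
        change D' (f • (x : U)) = _
        rw [D'.map_smul]
        rfl }
    (fun x y => D'.leibniz (x : U) (y : U))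

theorem toR_apply {F : Type} [Field F] [Algebra F E] [Algebra F U] [IsScalarTower F E U]
    (R : Subalgebra E U) (D' : Derivation F U U) (r : R) : toR R D' r = D' (r : U) := rfl

section fam

variable {I : Finset (Fin n)} {l : Fin n → Fin n → E} {N : 𝒞 → Fin n → ℕ}
  {r : ∀ c j, Fin (N c j) → (C c).R} {e : ∀ c j, Fin (N c j) → E}

/-- the relations for derivations of `U` -/
theorem Geo.relU (g : Geo F D C W)
    (hr : ∀ c j (K : Type) [Field K] [Algebra (C c).R K]
      [Algebra F K] [IsScalarTower F (C c).R K] (d : Derivation F (C c).R K),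
      (C c).w d j - ∑ i ∈ I, (C c).w d i * algebraMap (C c).R K (algebraMap E (C c).R (l i j)) =
        ∑ s, algebraMap (C c).R K (r c j s) * d (algebraMap E (C c).R (e c j s)))
    (c : 𝒞) (j : Fin n) (D' : Derivation k U U) (h : ∀ f : F, D' (algebraMap F U f) = 0) :
    W D' j - ∑ i ∈ I, W D' i * algebraMap E U (l i j) =
      ∑ s, (r c j s : U) * D' (algebraMap E U (e c j s)) := by
  have h1 := hr c j U (toR (C c).R (toF F D' h))
  rw [g.W_w c]
  simp only [g.W_w c]
  exact h1

/-- the values of the relations are in the small field -/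
theorem Geo.exists_f (g : Geo F D C W)
    (hr : ∀ c j (K : Type) [Field K] [Algebra (C c).R K]
      [Algebra F K] [IsScalarTower F (C c).R K] (d : Derivation F (C c).R K),
      (C c).w d j - ∑ i ∈ I, (C c).w d i * algebraMap (C c).R K (algebraMap E (C c).R (l i j)) =
        ∑ s, algebraMap (C c).R K (r c j s) * d (algebraMap E (C c).R (e c j s)))
    (d0 : Derivation F E E) (j : Fin n) : ∃ f : E, ∀ c,
      ∑ s, (r c j s : U) * algebraMap E U (d0 (e c j s)) = algebraMap E U f := by
  have hcU : CharZero U := charZero_of_injective_algebraMap (algebraMap k U).injective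
  have hkF : ∀ t : k, algebraMap k U t = algebraMap F U (algebraMap k F t) := fun t => by
    rw [IsScalarTower.algebraMap_apply k E U, IsScalarTower.algebraMap_apply k F E,
      ← IsScalarTower.algebraMap_apply F E U]
  have hst : IsScalarTower k F U := IsScalarTower.of_algebraMap_eq hkF
  obtain ⟨D1, hD1⟩ := exists_ext (k := F) (R := E) (K := U) (algebraMap E U).injective
    ((Algebra.linearMap E U).compDer d0)
  have hD1' : ∀ e : E, D1 (algebraMap E U e) = algebraMap E U (d0 e) := hD1
  have h1 : ∀ c, W (D1.restrictScalars k) j - ∑ i ∈ I, W (D1.restrictScalars k) i *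
      algebraMap E U (l i j) = ∑ s, (r c j s : U) * algebraMap E U (d0 (e c j s)) := by
    intro c
    rw [g.relU hr c j (D1.restrictScalars k) (fun f => D1.map_algebraMap f)]
    refine Finset.sum_congr rfl fun s _ => ?_
    rw [← hD1']
    rfl
  obtain ⟨f, hf⟩ := g.inter (W (D1.restrictScalars k) j - ∑ i ∈ I, W (D1.restrictScalars k) i *
      algebraMap E U (l i j)) (fun c => by
    rw [h1 c]
    exact (C c).R.sum_mem fun s _ => (C c).R.mul_mem (r c j s).2 ((C c).R.algebraMap_mem _))
  exact ⟨f, fun c => by rw [← h1, hf]⟩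

/-- **Derivations of the small field with prescribed values of the relations.** -/
theorem Geo.exists_d0 (g : Geo F D C W)
    (hr : ∀ c j (K : Type) [Field K] [Algebra (C c).R K]
      [Algebra F K] [IsScalarTower F (C c).R K] (d : Derivation F (C c).R K),
      (C c).w d j - ∑ i ∈ I, (C c).w d i * algebraMap (C c).R K (algebraMap E (C c).R (l i j)) =
        ∑ s, algebraMap (C c).R K (r c j s) * d (algebraMap E (C c).R (e c j s)))
    (j0 : Fin n) (hj0 : j0 ∉ I) : ∃ d0 : Derivation F E E, ∀ c, ∀ j ∉ I,
      ∑ s, (r c j s : U) * algebraMap E U (d0 (e c j s)) = if j = j0 then 1 else 0 := by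
  choose f hf using g.exists_f hr
  have hinj := (algebraMap E U).injective
  obtain ⟨c0⟩ := g.ne
  have hadd : ∀ d0 d1 j, f (d0 + d1) j = f d0 j + f d1 j := by
    intro d0 d1 j
    apply hinj
    rw [← hf _ _ c0, map_add, ← hf _ _ c0, ← hf _ _ c0, ← Finset.sum_add_distrib]
    refine Finset.sum_congr rfl fun s _ => ?_
    rw [Derivation.add_apply, map_add, mul_add]
  have hsmul : ∀ (a : E) d0 j, f (a • d0) j = a * f d0 j := by
    intro a d0 j
    apply hinj
    rw [← hf _ _ c0, map_mul, ← hf _ _ c0, Finset.mul_sum]
    refine Finset.sum_congr rfl fun s _ => ?_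
    rw [Derivation.smul_apply, smul_eq_mul, map_mul]; ring
  let V : Submodule E ({j // j ∉ I} → E) :=
    { carrier := {v | ∃ d0, v = fun j : {j // j ∉ I} => f d0 j}
      add_mem' := by
        rintro _ _ ⟨d0, rfl⟩ ⟨d1, rfl⟩
        exact ⟨d0 + d1, funext fun j => (hadd d0 d1 j).symm⟩
      zero_mem' := ⟨0, funext fun j => by
        have h := hsmul 0 0 j
        rw [zero_smul, zero_mul] at h
        exact h.symm⟩
      smul_mem' := by
        rintro a _ ⟨d0, rfl⟩
        exact ⟨a • d0, funext fun j => (hsmul a d0 j).symm⟩ }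
  have hV : V = ⊤ := by
    refine eq_top_of_annih V fun ν hν => ?_
    funext j1
    obtain ⟨D', hD', hW'⟩ := g.gen (Pi.single (j1 : Fin n) 1)
    -- a basis of `U` over `E`
    let b := Module.Basis.ofVectorSpace E U
    let dt : Module.Basis.ofVectorSpaceIndex E U → Derivation F E E := fun t => Derivation.mk'
      { toFun := fun x => b.coord t (D' (algebraMap E U x))
        map_add' := fun x y => by rw [map_add, map_add, map_add]
        map_smul' := fun a x => by
          rw [RingHom.id_apply, Algebra.smul_def, map_mul, D'.leibniz,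
            ← IsScalarTower.algebraMap_apply F E U, hD', smul_zero, add_zero, smul_eq_mul,
            IsScalarTower.algebraMap_apply F E U, ← Algebra.smul_def, map_smul,
            Algebra.smul_def a, smul_eq_mul] }
      (fun x y => by
        change b.coord t (D' (algebraMap E U (x * y))) = x • b.coord t (D' (algebraMap E U y)) +
          y • b.coord t (D' (algebraMap E U x))
        rw [map_mul, D'.leibniz, map_add, smul_eq_mul, smul_eq_mul, ← Algebra.smul_def,
          ← Algebra.smul_def, map_smul, map_smul])
    let T : Finset (Module.Basis.ofVectorSpaceIndex E U) :=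
      Finset.univ.biUnion fun j : {j // j ∉ I} => Finset.univ.biUnion fun s : Fin (N c0 j) =>
        (b.repr (D' (algebraMap E U (e c0 j s)))).support
    have hexp : ∀ (j : {j // j ∉ I}) (s : Fin (N c0 j)), D' (algebraMap E U (e c0 j s)) =
        ∑ t ∈ T, algebraMap E U (dt t (e c0 j s)) * b t := by
      intro j s
      have h1 := b.linearCombination_repr (D' (algebraMap E U (e c0 j s)))
      rw [Finsupp.linearCombination_apply, Finsupp.sum_of_support_subset (s := T)] at h1
      · conv_lhs => rw [← h1]
        refine Finset.sum_congr rfl fun t _ => ?_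
        rw [Algebra.smul_def]
        rfl
      · refine (Finset.subset_biUnion_of_mem
          (fun s : Fin (N c0 j) => (b.repr (D' (algebraMap E U (e c0 j s)))).support)
          (Finset.mem_univ s)).trans ?_
        exact Finset.subset_biUnion_of_mem (fun j : {j // j ∉ I} =>
          Finset.univ.biUnion fun s : Fin (N c0 j) =>
          (b.repr (D' (algebraMap E U (e c0 j s)))).support) (Finset.mem_univ j)
      · intro t _
        rw [zero_smul]
    have h2 : ∀ j : {j // j ∉ I}, W D' j - ∑ i ∈ I, W D' i * algebraMap E U (l i j) =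
        if j = j1 then 1 else 0 := by
      intro j
      rw [hW', Finset.sum_eq_zero]
      · rw [sub_zero]
        by_cases hj : j = j1
        · rw [hj, if_pos rfl, Pi.single_eq_same]
        · rw [if_neg hj, Pi.single_eq_of_ne (fun h => hj (Subtype.ext h))]
      · intro i hi
        have hij : i ≠ (j1 : Fin n) := fun h => j1.2 (h ▸ hi)
        rw [Pi.single_eq_of_ne hij, zero_mul]
    have h3 : ∑ j : {j // j ∉ I}, algebraMap E U (ν j) *
        (W D' j - ∑ i ∈ I, W D' i * algebraMap E U (l i j)) = 0 := by
      have h4 : ∀ j : {j // j ∉ I}, algebraMap E U (ν j) *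
          (W D' j - ∑ i ∈ I, W D' i * algebraMap E U (l i j)) =
          ∑ t ∈ T, algebraMap E U (ν j * f (dt t) j) * b t := by
        intro j
        rw [g.relU hr c0 j D' hD', Finset.mul_sum]
        simp only [hexp, Finset.mul_sum]
        rw [Finset.sum_comm]
        refine Finset.sum_congr rfl fun t _ => ?_
        rw [map_mul, ← hf _ _ c0, Finset.mul_sum, Finset.sum_mul]
        refine Finset.sum_congr rfl fun s _ => ?_
        ring
      simp only [h4]
      rw [Finset.sum_comm]
      refine Finset.sum_eq_zero fun t _ => ?_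
      rw [← Finset.sum_mul, ← map_sum, hν _ ⟨dt t, rfl⟩, map_zero, zero_mul]
    simp only [h2, mul_ite, mul_one, mul_zero] at h3
    rw [Finset.sum_ite_eq' Finset.univ j1, if_pos (Finset.mem_univ _)] at h3
    exact hinj (h3.trans (map_zero _).symm)
  have h1 : (fun j : {j // j ∉ I} => if (j : Fin n) = j0 then (1 : E) else 0) ∈ V := by
    rw [hV]; trivial
  obtain ⟨d0, hd0⟩ := h1
  refine ⟨d0, fun c j hj => ?_⟩
  rw [hf d0 j c]
  have h2 := congrFun hd0 ⟨j, hj⟩
  simp only at h2
  rw [← h2]
  split_ifs
  · rw [map_one]
  · rw [map_zero]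

end fam

/-- **The relations and the derivations of the small field.** -/
theorem Geo.out (g : Geo F D C W) : ∃ (I : Finset (Fin n)) (l : Fin n → Fin n → E),
    (∀ i ∈ I, ∃ D' : Derivation k U U, (∀ e : E, D' (algebraMap E U e) = 0) ∧
      ∀ j, W D' j = algebraMap E U (l i j)) ∧
    (∀ i ∈ I, ∀ j ∈ I, l i j = if j = i then 1 else 0) ∧
    (∀ c (K : Type) [Field K] [Algebra (C c).R K] [Algebra F K] [IsScalarTower F (C c).R K]
      (d : Derivation F (C c).R K), (∀ e : E, d (algebraMap E (C c).R e) = 0) → ∀ j,
      (C c).w d j = ∑ i ∈ I, (C c).w d i * algebraMap (C c).R K (algebraMap E (C c).R (l i j))) ∧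
    (∀ j0 ∉ I, ∃ d0 : Derivation F E E, ∀ c (K : Type) [Field K] [Algebra (C c).R K]
      [Algebra F K] [IsScalarTower F (C c).R K] (d : Derivation F (C c).R K),
      (∀ e : E, d (algebraMap E (C c).R e) =
        algebraMap (C c).R K (algebraMap E (C c).R (d0 e))) → ∀ j ∉ I,
      (C c).w d j - ∑ i ∈ I, (C c).w d i *
        algebraMap (C c).R K (algebraMap E (C c).R (l i j)) = if j = j0 then 1 else 0) := by
  obtain ⟨I, l, h1, h2, h3⟩ := g.rel
  choose N r e hr using g.relR h3
  refine ⟨I, l, h1, h2, fun c K _ _ _ _ d hd j => ?_, fun j0 hj0 => ?_⟩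
  · have h4 := hr c j K d
    rw [Finset.sum_eq_zero (f := fun s => algebraMap (C c).R K (r c j s) *
      d (algebraMap E (C c).R (e c j s))) (fun s _ => by rw [hd, mul_zero]), sub_eq_zero] at h4
    exact h4
  · obtain ⟨d0, hd0⟩ := g.exists_d0 hr j0 hj0
    refine ⟨d0, fun c K _ _ _ _ d hd j hj => ?_⟩
    rw [hr c j K d]
    have h4 : ∑ s, r c j s * algebraMap E (C c).R (d0 (e c j s)) =
        (if j = j0 then 1 else 0 : (C c).R) := by
      apply Subtype.ext
      have h5 := hd0 c j hj
      have h6 : ((∑ s, r c j s * algebraMap E (C c).R (d0 (e c j s)) : (C c).R) : U) =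
          ∑ s, (r c j s : U) * algebraMap E U (d0 (e c j s)) := by
        have := map_sum ((C c).R.val) (fun s => r c j s * algebraMap E (C c).R (d0 (e c j s)))
          Finset.univ
        exact this
      rw [h6, h5]
      split_ifs <;> rfl
    have h5 := congrArg (algebraMap (C c).R K) h4
    rw [map_sum] at h5
    simp only [hd]
    simp only [map_mul] at h5
    rw [h5]
    split_ifs
    · rw [map_one]
    · rw [map_zero]

end Pool.Agent.K1H80.EG
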