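import Pool.Agent.K1H80.EC.Der

/-!
# Kaehler differentials of differentially simple algebras are torsion free
-/

set_option autoImplicit false
set_option linter.unusedSectionVars false

namespace Pool.Agent.K1H80.EG

open KaehlerDifferential

/-- pairs of elements -/
def Tw (N : Type) : Type := N × N

/-- a pair -/
def mkTw {N : Type} (a b : N) : Tw N := (a, b)

instance instTw (N : Type) [AddCommGroup N] : AddCommGroup (Tw N) :=
  inferInstanceAs (AddCommGroup (N × N))

variable {E R : Type} [Field E] [CommRing R] [Algebra E R]

/-- the twisted module structure -/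
abbrev twMod (D : Derivation ℤ R R) (N : Type) [AddCommGroup N] [Module R N] :
    Module R (Tw N) where
  smul r x := (r • x.1, r • x.2 + D r • x.1)
  one_smul x := by
    change ((1 : R) • x.1, (1 : R) • x.2 + D 1 • x.1) = x
    rw [D.map_one_eq_zero, zero_smul, add_zero, one_smul, one_smul]
    rfl
  mul_smul r s x := by
    change ((r * s) • x.1, (r * s) • x.2 + D (r * s) • x.1) =
      (r • (s • x.1), r • (s • x.2 + D s • x.1) + D r • (s • x.1))
    rw [D.leibniz, smul_eq_mul, smul_eq_mul]
    refine Prod.ext ?_ ?_
    · exact mul_smul r s x.1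
    · change (r * s) • x.2 + (r * D s + s * D r) • x.1 =
        r • (s • x.2 + D s • x.1) + D r • (s • x.1)
      module
  smul_zero r := by
    change (r • (0 : N), r • (0 : N) + D r • (0 : N)) = ((0 : N), (0 : N))
    rw [smul_zero, smul_zero, add_zero]
  smul_add r x y := by
    change (r • (x.1 + y.1), r • (x.2 + y.2) + D r • (x.1 + y.1)) =
      (r • x.1 + r • y.1, (r • x.2 + D r • x.1) + (r • y.2 + D r • y.1))
    refine Prod.ext ?_ ?_
    · exact smul_add _ _ _
    · change r • (x.2 + y.2) + D r • (x.1 + y.1) =
        (r • x.2 + D r • x.1) + (r • y.2 + D r • y.1)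
      module
  add_smul r s x := by
    change ((r + s) • x.1, (r + s) • x.2 + D (r + s) • x.1) =
      (r • x.1 + s • x.1, (r • x.2 + D r • x.1) + (s • x.2 + D s • x.1))
    rw [map_add]
    refine Prod.ext ?_ ?_
    · exact add_smul _ _ _
    · change (r + s) • x.2 + (D r + D s) • x.1 =
        (r • x.2 + D r • x.1) + (s • x.2 + D s • x.1)
      module
  zero_smul x := by
    change ((0 : R) • x.1, (0 : R) • x.2 + D 0 • x.1) = ((0 : N), (0 : N))
    rw [map_zero, zero_smul, zero_smul, add_zero]

/-- the Lie derivative -/
theorem exists_Ld (D : Derivation ℤ R R)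
    (hE : ∀ e : E, ∃ e' : E, D (algebraMap E R e) = algebraMap E R e') :
    ∃ L : Ω[R⁄E] → Ω[R⁄E], (∀ x y, L (x + y) = L x + L y) ∧
      ∀ (r : R) x, L (r • x) = r • L x + D r • x := by
  let _ : Module R (Tw Ω[R⁄E]) := twMod D Ω[R⁄E]
  let _ : Module E (Tw Ω[R⁄E]) := Module.compHom (Tw Ω[R⁄E]) (algebraMap E R)
  have hst : IsScalarTower E R (Tw Ω[R⁄E]) := ⟨fun e r x => by
    change (e • r) • x = algebraMap E R e • (r • x)
    rw [Algebra.smul_def, mul_smul]⟩
  have hsm : ∀ (r : R) (x : Tw Ω[R⁄E]), r • x = (r • x.1, r • x.2 + D r • x.1) := fun _ _ => rfl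
  let d : Derivation E R (Tw Ω[R⁄E]) := Derivation.mk'
    { toFun := fun r => mkTw (KaehlerDifferential.D E R r) (KaehlerDifferential.D E R (D r))
      map_add' := fun r s => by
        rw [map_add, map_add, map_add]
        rfl
      map_smul' := fun e r => by
        obtain ⟨e', he'⟩ := hE e
        change mkTw (KaehlerDifferential.D E R (e • r)) (KaehlerDifferential.D E R (D (e • r))) =
          algebraMap E R e • mkTw (KaehlerDifferential.D E R r) (KaehlerDifferential.D E R (D r))
        rw [hsm, Algebra.smul_def, D.leibniz, he', smul_eq_mul, smul_eq_mul]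
        refine Prod.ext ?_ ?_
        · change KaehlerDifferential.D E R (algebraMap E R e * r) =
            algebraMap E R e • KaehlerDifferential.D E R r
          rw [Derivation.leibniz, Derivation.map_algebraMap, smul_zero, add_zero]
        · change KaehlerDifferential.D E R (algebraMap E R e * D r + r * algebraMap E R e') =
            algebraMap E R e • KaehlerDifferential.D E R (D r) +
              algebraMap E R e' • KaehlerDifferential.D E R r
          rw [map_add, Derivation.leibniz, Derivation.leibniz, Derivation.map_algebraMap,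
            Derivation.map_algebraMap, smul_zero, smul_zero, add_zero, zero_add] }
    (fun r s => by
      change mkTw (KaehlerDifferential.D E R (r * s)) (KaehlerDifferential.D E R (D (r * s))) =
        r • mkTw (KaehlerDifferential.D E R s) (KaehlerDifferential.D E R (D s)) +
        s • mkTw (KaehlerDifferential.D E R r) (KaehlerDifferential.D E R (D r))
      rw [hsm, hsm, D.leibniz, smul_eq_mul, smul_eq_mul]
      refine Prod.ext ?_ ?_
      · change KaehlerDifferential.D E R (r * s) = r • KaehlerDifferential.D E R s +
          s • KaehlerDifferential.D E R r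
        rw [Derivation.leibniz]
      · change KaehlerDifferential.D E R (r * D s + s * D r) =
          (r • KaehlerDifferential.D E R (D s) + D r • KaehlerDifferential.D E R s) +
          (s • KaehlerDifferential.D E R (D r) + D s • KaehlerDifferential.D E R r)
        rw [map_add, Derivation.leibniz, Derivation.leibniz]
        abel)
  let l : Ω[R⁄E] →ₗ[R] Tw Ω[R⁄E] := d.liftKaehlerDifferential
  have hl : ∀ r, l (KaehlerDifferential.D E R r) =
      mkTw (KaehlerDifferential.D E R r) (KaehlerDifferential.D E R (D r)) := fun r =>
    d.liftKaehlerDifferential_comp_D r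
  let f : Tw Ω[R⁄E] →ₗ[R] Ω[R⁄E] :=
    { toFun := fun x => x.1
      map_add' := fun x y => rfl
      map_smul' := fun r x => rfl }
  have h1 : ∀ x, (l x).1 = x := by
    have h2 : f.comp l = LinearMap.id := by
      refine Derivation.liftKaehlerDifferential_unique _ _ ?_
      ext r
      change (l (KaehlerDifferential.D E R r)).1 = KaehlerDifferential.D E R r
      rw [hl]
      rfl
    intro x
    exact LinearMap.congr_fun h2 x
  refine ⟨fun x => (l x).2, fun x y => ?_, fun r x => ?_⟩
  · change (l (x + y)).2 = (l x).2 + (l y).2
    rw [map_add]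
    rfl
  · change (l (r • x)).2 = r • (l x).2 + D r • x
    rw [l.map_smul, hsm, h1]

/-- **Kaehler differentials of differentially simple algebras are torsion free.** -/
theorem tf [IsDomain R] [Algebra.FiniteType E R] (D : Derivation ℤ R R)
    (hE : ∀ e : E, ∃ e' : E, D (algebraMap E R e) = algebraMap E R e')
    (hsim : ∀ J : Ideal R, (∀ r ∈ J, D r ∈ J) → J ≠ ⊥ → J = ⊤) {x : Ω[R⁄E]} {r : R} (hr : r ≠ 0)
    (h : r • x = 0) : x = 0 := by
  obtain ⟨L, hL1, hL2⟩ := exists_Ld (E := E) D hE
  have hN : IsNoetherianRing R := Algebra.FiniteType.isNoetherianRing E R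
  have hfin : Module.Finite R Ω[R⁄E] := inferInstance
  have hL0 : L 0 = 0 := by
    have := hL1 0 0
    rw [add_zero] at this
    exact left_eq_add.1 this
  set T := Submodule.torsion R Ω[R⁄E] with hT
  have hLT : ∀ y ∈ T, L y ∈ T := by
    intro y hy
    rw [Submodule.mem_torsion_iff] at hy ⊢
    obtain ⟨⟨s, hs⟩, hsy⟩ := hy
    have hsy' : s • y = 0 := hsy
    refine ⟨⟨s * s, mul_mem hs hs⟩, ?_⟩
    change (s * s) • L y = 0
    have h1 := hL2 s y
    rw [hsy', hL0] at h1
    have h2 : (s * s) • L y = s • (s • L y + D s • y) - D s • (s • y) := by module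
    rw [h2, ← h1, hsy', smul_zero, smul_zero, sub_zero]
  have hann : T.annihilator = ⊤ := by
    refine hsim _ ?_ ?_
    · intro s hs
      rw [Submodule.mem_annihilator] at hs ⊢
      intro y hy
      have h1 := hL2 s y
      rw [hs y hy, hL0, hs _ (hLT y hy), zero_add] at h1
      exact h1.symm
    · have h1 : Module.IsTorsion R T := Submodule.torsion_isTorsion
      have h2 := Submodule.annihilator_top_inter_nonZeroDivisors h1
      obtain ⟨s, hs1, hs2⟩ := h2
      intro h3
      have h4 : s ∈ T.annihilator := by
        rw [Submodule.mem_annihilator]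
        intro y hy
        have h5 := (Submodule.mem_annihilator.1 hs1) ⟨y, hy⟩ trivial
        exact congrArg Subtype.val h5
      rw [h3, Ideal.mem_bot] at h4
      exact (nonZeroDivisors.ne_zero hs2) h4
  have h1 : (1 : R) ∈ T.annihilator := by rw [hann]; trivial
  rw [Submodule.mem_annihilator] at h1
  have h2 := h1 x (by
    rw [hT, Submodule.mem_torsion_iff]
    exact ⟨⟨r, mem_nonZeroDivisors_of_ne_zero hr⟩, h⟩)
  rwa [one_smul] at h2

/-- an element of the module of differentials which is killed by all derivations to a field is
torsion -/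
theorem tors_of_forall [IsDomain R] {U : Type} [Field U] [CharZero U] [Algebra R U] [Algebra E U]
    [IsScalarTower E R U] (hinj : Function.Injective (algebraMap R U)) {x : Ω[R⁄E]}
    (h : ∀ d : Derivation E R U, d.liftKaehlerDifferential x = 0) : ∃ r : R, r ≠ 0 ∧ r • x = 0 := by
  let K := FractionRing R
  have hfs : FaithfulSMul R U := (faithfulSMul_iff_algebraMap_injective _ _).2 hinj
  let _ : Algebra K U := FractionRing.liftAlgebra R U
  have hst : IsScalarTower R K U := inferInstance
  have hst2 : IsScalarTower E K U := IsScalarTower.of_algebraMap_eq fun e => by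
    rw [IsScalarTower.algebraMap_apply E R U, IsScalarTower.algebraMap_apply E R K,
      ← IsScalarTower.algebraMap_apply R K U]
  have h1 : KaehlerDifferential.map E E R K x = 0 := by
    rw [← Module.forall_dual_apply_eq_zero_iff K]
    intro φ
    let d1 : Derivation E K K := φ.compDer (KaehlerDifferential.D E K)
    let d2 : Derivation E R U := Derivation.mk'
      { toFun := fun r => algebraMap K U (d1 (algebraMap R K r))
        map_add' := fun r s => by simp only [map_add]
        map_smul' := fun e r => by
          rw [RingHom.id_apply, Algebra.smul_def, map_mul, ← IsScalarTower.algebraMap_apply E R K,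
            d1.leibniz, d1.map_algebraMap, smul_zero, add_zero, smul_eq_mul, map_mul,
            ← IsScalarTower.algebraMap_apply, Algebra.smul_def] }
      (fun r s => by
        change algebraMap K U (d1 (algebraMap R K (r * s))) =
          r • algebraMap K U (d1 (algebraMap R K s)) + s • algebraMap K U (d1 (algebraMap R K r))
        rw [map_mul, d1.leibniz, smul_eq_mul, smul_eq_mul, map_add, map_mul, map_mul,
          ← IsScalarTower.algebraMap_apply, ← IsScalarTower.algebraMap_apply, Algebra.smul_def,
          Algebra.smul_def])
    have key : ∀ y : Ω[R⁄E], algebraMap K U (φ (KaehlerDifferential.map E E R K y)) =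
        d2.liftKaehlerDifferential y := by
      intro y
      have hy : y ∈ Submodule.span R (Set.range (KaehlerDifferential.D E R)) := by
        rw [KaehlerDifferential.span_range_derivation]; trivial
      induction hy using Submodule.span_induction with
      | mem y hy =>
        obtain ⟨r, rfl⟩ := hy
        rw [KaehlerDifferential.map_D, d2.liftKaehlerDifferential_comp_D]
        rfl
      | zero => simp only [map_zero]
      | add y z _ _ h2 h3 => simp only [map_add, h2, h3]
      | smul r y _ h2 =>
        rw [(KaehlerDifferential.map E E R K).map_smul, (d2.liftKaehlerDifferential).map_smul,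
          ← h2, ← IsScalarTower.algebraMap_smul K r
          (KaehlerDifferential.map E E R K y), φ.map_smul, smul_eq_mul, map_mul,
          ← IsScalarTower.algebraMap_apply, Algebra.smul_def]
    apply (algebraMap K U).injective
    rw [key, h, map_zero]
  have h2 := IsLocalizedModule.eq_zero_iff (nonZeroDivisors R) (KaehlerDifferential.map E E R K)
    (m := x)
  obtain ⟨⟨r, hr⟩, hr2⟩ := h2.1 h1
  exact ⟨r, nonZeroDivisors.ne_zero hr, hr2⟩

end Pool.Agent.K1H80.EG
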